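import Pool.Agent.H31.BOU.Targets3

/-!
The averages as sums of the `DD`.
-/

set_option autoImplicit false

namespace Pool.Agent.H7.BOU

open Finset Pool.Agent.H31.BOU

private theorem exists_prim (f : ℤ → ℂ) : ∃ S : ℤ → ℂ, ∀ n, S n = S (n - 1) + f n := by
  refine ⟨fun n => ∑ i ∈ Ioc 0 n, f i - ∑ i ∈ Ioc n 0, f i, ?_⟩
  intro n
  by_cases hn : 1 ≤ n
  · have h1 : Ioc n 0 = ∅ := Finset.Ioc_eq_empty (by omega)
    have h2 : Ioc (n - 1) 0 = ∅ := Finset.Ioc_eq_empty (by omega)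
    have h3 : Ioc 0 n = insert n (Ioc 0 (n - 1)) := by
      ext x
      simp only [mem_Ioc, mem_insert]
      omega
    have h4 : n ∉ Ioc 0 (n - 1) := by
      simp only [mem_Ioc]
      omega
    simp only [h1, h2, h3, sum_insert h4, sum_empty, sub_zero]
    ring
  · have h1 : Ioc 0 n = ∅ := Finset.Ioc_eq_empty (by omega)
    have h2 : Ioc 0 (n - 1) = ∅ := Finset.Ioc_eq_empty (by omega)
    have h3 : Ioc (n - 1) 0 = insert n (Ioc n 0) := by
      ext x
      simp only [mem_Ioc, mem_insert]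
      omega
    have h4 : n ∉ Ioc n 0 := by
      simp only [mem_Ioc]
      omega
    simp only [h1, h2, h3, sum_insert h4, sum_empty, zero_sub]
    ring

private theorem tele {f S : ℤ → ℂ} (hS : ∀ n, S n = S (n - 1) + f n) (x : ℤ) (m : ℕ) :
    ∑ b ∈ range m, f (x - b) = S x - S (x - m) := by
  induction m with
  | zero => simp
  | succ m ih =>
    rw [sum_range_succ, ih]
    have h1 := hS (x - m)
    have h2 : x - ((m + 1 : ℕ) : ℤ) = x - m - 1 := by
      push_cast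
      ring
    rw [h2, h1]
    ring

private theorem lip {f S : ℤ → ℂ} (hS : ∀ n, S n = S (n - 1) + f n) (hf : ∀ n, ‖f n‖ ≤ 1)
    (x y : ℤ) : ‖S x - S y‖ ≤ |(x : ℝ) - y| := by
  have key : ∀ (x y : ℤ), y ≤ x → ‖S x - S y‖ ≤ |(x : ℝ) - y| := by
    intro x y hxy
    obtain ⟨m, hm⟩ := Int.eq_ofNat_of_zero_le (sub_nonneg.2 hxy)
    have h1 := tele hS x m
    have h2 : x - (m : ℤ) = y := by omega
    rw [h2] at h1
    rw [← h1]
    have h3 : |(x : ℝ) - y| = m := by
      have h4 : (x : ℝ) - y = ((x - y : ℤ) : ℝ) := by push_cast; ring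
      rw [h4, hm]
      simp
    rw [h3]
    refine (norm_sum_le _ _).trans ?_
    have h5 : ∑ b ∈ range m, ‖f (x - (b : ℤ))‖ ≤ ∑ b ∈ range m, (1 : ℝ) :=
      sum_le_sum fun b _ => hf (x - (b : ℤ))
    refine h5.trans ?_
    simp
  rcases le_total y x with h | h
  · exact key x y h
  · rw [norm_sub_rev, abs_sub_comm]
    exact key y x h

theorem pf_KER : T_KER := by
  intro F G j κ k N hF hG hk1 hk2 hN
  have hL : (0 : ℤ) < 2 ^ j := by positivity
  have hN0 : 0 < N := lt_of_lt_of_le (by positivity) hN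
  obtain ⟨S, hS⟩ := exists_prim (fun n => F (k + n) * G (k - n))
  have hf : ∀ n : ℤ, ‖F (k + n) * G (k - n)‖ ≤ 1 := by
    intro n
    rw [norm_mul]
    exact mul_le_one₀ (hF _) (norm_nonneg _) (hG _)
  set M := N / 2 ^ j with hM
  have hM1 : M * 2 ^ j ≤ N := Nat.div_mul_le_self N (2 ^ j)
  have hM2 : N < (M + 1) * 2 ^ j := by
    have h := Nat.lt_div_mul_add (a := N) (b := 2 ^ j) (by positivity)
    rw [add_mul, one_mul]
    exact h
  have h1 : ∀ t : ℕ, DD F G j κ t k =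
      (∑ a ∈ range (2 ^ j), (S (k - κ * 2 ^ j - a + t * 2 ^ j) -
        S (k - κ * 2 ^ j - a + t * 2 ^ j - 2 ^ j))) / 4 ^ j := by
    intro t
    unfold DD
    congr 1
    apply sum_congr rfl
    intro a _
    have h2 := tele hS (k - κ * 2 ^ j - a + t * 2 ^ j) (2 ^ j)
    push_cast at h2
    rw [← h2]
    apply sum_congr rfl
    intro b _
    have e1 : (κ - (t : ℤ)) * 2 ^ j + a + b = k - (k - κ * 2 ^ j - a + t * 2 ^ j - b) := by ring
    have e2 : 2 * k - ((κ - (t : ℤ)) * 2 ^ j + a + b) =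
        k + (k - κ * 2 ^ j - a + t * 2 ^ j - b) := by ring
    rw [e2, e1, mul_comm]
  have h2 : ∑ t ∈ range (M + 1), DD F G j κ t k =
      (∑ a ∈ range (2 ^ j), (S (k - κ * 2 ^ j - a + M * 2 ^ j) -
        S (k - κ * 2 ^ j - a - 2 ^ j))) / 4 ^ j := by
    rw [sum_congr rfl fun t _ => h1 t, ← sum_div, sum_comm]
    congr 1
    apply sum_congr rfl
    intro a _
    have h3 : ∀ m : ℕ, ∑ t ∈ range (m + 1), (S (k - κ * 2 ^ j - a + t * 2 ^ j) -
        S (k - κ * 2 ^ j - a + t * 2 ^ j - 2 ^ j)) = S (k - κ * 2 ^ j - a + m * 2 ^ j) -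
        S (k - κ * 2 ^ j - a - 2 ^ j) := by
      intro m
      induction m with
      | zero => simp
      | succ m ih =>
        rw [sum_range_succ, ih]
        have e1 : k - κ * 2 ^ j - (a : ℤ) + ((m + 1 : ℕ) : ℤ) * 2 ^ j - 2 ^ j =
            k - κ * 2 ^ j - a + m * 2 ^ j := by
          push_cast
          ring
        rw [e1]
        ring
    exact h3 M
  have h3 : AN F G N k = (S N - S 0) / N := by
    unfold AN
    congr 1
    have h4 := tele hS N N
    rw [sub_self] at h4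
    rw [← h4]
    symm
    apply sum_bij (fun b _ => N - b)
    · intro b hb
      rw [mem_range] at hb
      rw [mem_Icc]
      omega
    · intro a ha b hb hab
      rw [mem_range] at ha hb
      omega
    · intro b hb
      rw [mem_Icc] at hb
      exact ⟨N - b, by rw [mem_range]; omega, by omega⟩
    · intro b hb
      rw [mem_range] at hb
      rw [Nat.cast_sub hb.le]
  have hLr : (0 : ℝ) < 2 ^ j := by positivity
  have hNr : (0 : ℝ) < N := by exact_mod_cast hN0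
  have h4 : AN F G N k - (2 ^ j / N : ℂ) * ∑ t ∈ range (M + 1), DD F G j κ t k =
      (∑ a ∈ range (2 ^ j), ((S N - S (k - κ * 2 ^ j - a + M * 2 ^ j)) -
        (S 0 - S (k - κ * 2 ^ j - a - 2 ^ j)))) / (2 ^ j * N) := by
    have h5 : (∑ a ∈ range (2 ^ j), ((S N - S (k - κ * 2 ^ j - a + M * 2 ^ j)) -
        (S 0 - S (k - κ * 2 ^ j - a - 2 ^ j)))) = 2 ^ j * (S N - S 0) -
        (∑ a ∈ range (2 ^ j), (S (k - κ * 2 ^ j - a + M * 2 ^ j) -
        S (k - κ * 2 ^ j - a - 2 ^ j))) := by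
      have h6 : (2 ^ j * (S N - S 0) : ℂ) = ∑ a ∈ range (2 ^ j), (S N - S 0) := by
        rw [sum_const, card_range, nsmul_eq_mul]
        push_cast
        ring
      rw [h6, ← sum_sub_distrib]
      apply sum_congr rfl
      intro a _
      ring
    rw [h5, h2, h3]
    have e4 : (4 : ℂ) ^ j = 2 ^ j * 2 ^ j := by
      rw [← mul_pow]
      norm_num
    rw [e4]
    have hNc : (N : ℂ) ≠ 0 := by exact_mod_cast hN0.ne'
    have hLc : (2 : ℂ) ^ j ≠ 0 := pow_ne_zero _ two_ne_zero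
    field_simp
  rw [h4, norm_div, norm_mul, norm_pow, Complex.norm_ofNat, Complex.norm_natCast]
  rw [div_le_div_iff₀ (by positivity) hNr]
  have hw1 : 0 ≤ k - κ * 2 ^ j := by linarith
  have hw2 : k - κ * 2 ^ j < 2 * 2 ^ j := by linarith
  have h5 : ‖∑ a ∈ range (2 ^ j), ((S N - S (k - κ * 2 ^ j - a + M * 2 ^ j)) -
        (S 0 - S (k - κ * 2 ^ j - a - 2 ^ j)))‖ ≤ 2 ^ j * (4 * 2 ^ j) := by
    refine (norm_sum_le _ _).trans ?_
    have h6 : ∀ a ∈ range (2 ^ j), ‖(S N - S (k - κ * 2 ^ j - a + M * 2 ^ j)) -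
        (S 0 - S (k - κ * 2 ^ j - a - 2 ^ j))‖ ≤ 4 * 2 ^ j := by
      intro a ha
      rw [mem_range] at ha
      have ha' : (a : ℤ) < 2 ^ j := by exact_mod_cast ha
      have ha0 : (0 : ℤ) ≤ a := by positivity
      refine (norm_sub_le _ _).trans ?_
      have h7 := lip hS hf N (k - κ * 2 ^ j - a + M * 2 ^ j)
      have h8 := lip hS hf 0 (k - κ * 2 ^ j - a - 2 ^ j)
      have hM1' : (M : ℤ) * 2 ^ j ≤ N := by exact_mod_cast hM1
      have hM2' : (N : ℤ) < (M + 1) * 2 ^ j := by exact_mod_cast hM2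
      have h9 : |((N : ℤ) : ℝ) - ((k - κ * 2 ^ j - a + M * 2 ^ j : ℤ) : ℝ)| ≤ 2 * 2 ^ j := by
        have h10 : |(N : ℤ) - (k - κ * 2 ^ j - a + M * 2 ^ j)| ≤ 2 * 2 ^ j := by
          rw [abs_le]
          constructor <;> linarith
        exact_mod_cast h10
      have h10 : |((0 : ℤ) : ℝ) - ((k - κ * 2 ^ j - a - 2 ^ j : ℤ) : ℝ)| ≤ 2 * 2 ^ j := by
        have h11 : |(0 : ℤ) - (k - κ * 2 ^ j - a - 2 ^ j)| ≤ 2 * 2 ^ j := by
          rw [abs_le]
          constructor <;> linarith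
        exact_mod_cast h11
      linarith
    refine (sum_le_sum h6).trans ?_
    rw [sum_const, card_range, nsmul_eq_mul]
    push_cast
    exact le_refl _
  calc _ ≤ (2 : ℝ) ^ j * (4 * 2 ^ j) * N := mul_le_mul_of_nonneg_right h5 hNr.le
    _ ≤ 8 * 2 ^ j * (2 ^ j * N) := by nlinarith [mul_pos (mul_pos hLr hLr) hNr]

end Pool.Agent.H7.BOU
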